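import Pool.Agent.L0h38.MON.Stm
import Pool.Agent.V11238.MG.FP

set_option autoImplicit false

/-!
# Project MON, module E6: simple groups with finitely many conjugacy classes
-/

namespace Pool.Agent.L0h19.MON

open Pool.Agent.L0h38.MON

/-- there is a least normal subgroup of finite index -/
theorem least_fi (G : Type) [Group G] (hfin : {N : Subgroup G | N.Normal}.Finite) :
    ∃ M : Subgroup G, M.Normal ∧ M.FiniteIndex ∧
      ∀ H : Subgroup G, H.Normal → H.FiniteIndex → M ≤ H := by
  have hT : {H : Subgroup G | H.Normal ∧ H.FiniteIndex}.Finite := hfin.subset fun H h => h.1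
  obtain ⟨M, ⟨h1, h2⟩, h3⟩ := hT.exists_minimal ⟨⊤, inferInstance, inferInstance⟩
  refine ⟨M, h1, h2, fun H h4 h5 => ?_⟩
  have h6 := h3 (y := M ⊓ H) ⟨inferInstance, inferInstance⟩ inf_le_left
  exact h6.trans inf_le_right

/-- an infinite group without proper subgroups of finite index and with finitely many normal
subgroups has an infinite simple quotient -/
theorem simple_quot (M : Type) [Group M] (hinf : Infinite M)
    (hno : ∀ H : Subgroup M, H.FiniteIndex → H = ⊤) (hfin : {N : Subgroup M | N.Normal}.Finite) :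
    ∃ N : Subgroup M, ∃ _ : N.Normal, Infinite (M ⧸ N) ∧ IsSimpleGroup (M ⧸ N) := by
  have hT : {N : Subgroup M | N.Normal ∧ N ≠ ⊤}.Finite := hfin.subset fun H h => h.1
  have hnt : Nontrivial M := inferInstance
  obtain ⟨N, ⟨h1, h2⟩, h3⟩ := hT.exists_maximal ⟨⊥, inferInstance, bot_ne_top⟩
  have hinfq : Infinite (M ⧸ N) := by
    by_contra h
    rw [not_infinite_iff_finite] at h
    exact h2 (hno N Subgroup.finiteIndex_of_finite_quotient)
  refine ⟨N, h1, hinfq, ?_⟩
  have hntq : Nontrivial (M ⧸ N) := inferInstance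
  refine { toNontrivial := hntq, eq_bot_or_eq_top_of_normal := fun H hH => ?_ }
  have hsurj : Function.Surjective (QuotientGroup.mk' N) := QuotientGroup.mk'_surjective N
  have hc : (H.comap (QuotientGroup.mk' N)).Normal := hH.comap _
  by_cases h4 : H.comap (QuotientGroup.mk' N) = ⊤
  · right
    rw [← Subgroup.map_comap_eq_self_of_surjective hsurj H, h4]
    exact Subgroup.map_top_of_surjective _ hsurj
  · left
    have h5 : N ≤ H.comap (QuotientGroup.mk' N) := by
      intro x hx
      rw [Subgroup.mem_comap, QuotientGroup.mk'_apply, (QuotientGroup.eq_one_iff x).2 hx]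
      exact H.one_mem
    have h6 := h3 (y := H.comap (QuotientGroup.mk' N)) ⟨hc, h4⟩ h5
    rw [eq_bot_iff]
    intro x hx
    obtain ⟨y, rfl⟩ := hsurj x
    have h7 : y ∈ N := h6 hx
    rw [Subgroup.mem_bot, QuotientGroup.mk'_apply]
    exact (QuotientGroup.eq_one_iff y).2 h7

theorem E6 : S_E6 := by
  intro hF hN G _ _ hinf hcc
  obtain ⟨M, hMn, hMi, hmin⟩ := least_fi G (hN G hcc).2
  have hMc : Finite (ConjClasses M) := hF G hcc M hMn hMi
  have hMfp : Group.IsFinitelyPresented M := Pool.Agent.V11238.MG.fp_of_finiteIndex M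
  have hMinf : Infinite M := by
    by_contra h
    rw [not_infinite_iff_finite] at h
    have h1 : Nat.card G ≠ 0 := by
      rw [← M.card_mul_index]
      exact mul_ne_zero Nat.card_pos.ne' hMi.index_ne_zero
    have := Nat.finite_of_card_ne_zero h1
    exact not_finite G
  have hno : ∀ H : Subgroup M, H.FiniteIndex → H = ⊤ := by
    intro H hH
    have h1 : (H.map M.subtype).FiniteIndex := by
      refine ⟨?_⟩
      rw [Subgroup.index_map_subtype]
      exact mul_ne_zero hH.index_ne_zero hMi.index_ne_zero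
    have h2 : M ≤ (H.map M.subtype).normalCore := hmin _ inferInstance inferInstance
    have h3 : M ≤ H.map M.subtype := h2.trans (Subgroup.normalCore_le _)
    rw [eq_top_iff]
    rintro ⟨x, hx⟩ _
    obtain ⟨y, hy, hyx⟩ := h3 hx
    have h4 : y = ⟨x, hx⟩ := Subtype.ext hyx
    rwa [← h4]
  obtain ⟨hfg, hfinM⟩ := hN M hMc
  obtain ⟨N, hNn, hNi, hNs⟩ := simple_quot M hMinf hno hfinM
  have hq : Group.IsFinitelyPresented (M ⧸ N) := Group.IsFinitelyPresented.quotient N (hfg N hNn)
  have hcq : Finite (ConjClasses (M ⧸ N)) :=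
    Finite.of_surjective (ConjClasses.map (QuotientGroup.mk' N))
      (ConjClasses.map_surjective (QuotientGroup.mk'_surjective N))
  exact ⟨M ⧸ N, inferInstance, hq, hNi, hcq, hNs⟩

end Pool.Agent.L0h19.MON
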